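import Pool.Agent.H34.FS.Targets
import Pool.Agent.H52.HFQ.PO3

/-!
# MP_63b6b1_nt, board hfs, row SPC: the number of the pairs congruent to the special pair
-/

set_option autoImplicit false

open Finset Pool.Agent.H32.RQ Pool.Agent.H34.FQ

namespace Pool.Agent.H65.HFS

open Pool.Agent.H34.FS

/-- the admissible values of one coefficient -/
noncomputable def Sc (U A : ℕ) (e : ℤ) : Finset ℤ :=
  (Finset.Icc (-(A : ℤ)) A).filter fun u => (U : ℤ) ∣ u - e

theorem Sc_card (U A : ℕ) (e : ℤ) (hU : 1 ≤ U) (hA : U ≤ A) :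
    (A : ℝ) / U ≤ ((Sc U A e).card : ℝ) := by
  have hU0 : (0 : ℝ) < U := by exact_mod_cast hU
  have hUZ : (0 : ℤ) < U := by exact_mod_cast hU
  set n : ℕ := (2 * A + 1) / U with hn
  have hn1 : U * n ≤ 2 * A + 1 := Nat.mul_div_le _ _
  have hn2 : 2 * A + 1 < U * n + U := by
    have := Nat.lt_mul_div_succ (2 * A + 1) hU
    rw [hn]
    linarith
  set z : ℤ := ((A : ℤ) - e) / U with hz
  have hz1 : (U : ℤ) * z ≤ (A : ℤ) - e := by
    rw [hz]
    exact Int.mul_ediv_self_le hUZ.ne'
  have hz2 : (A : ℤ) - e < U * z + U := by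
    have := Int.lt_mul_ediv_self_add (x := (A : ℤ) - e) hUZ
    rw [hz]
    exact this
  have hsub : (Finset.range n).image (fun k : ℕ => e + (U : ℤ) * (z - k)) ⊆ Sc U A e := by
    intro u hu
    obtain ⟨k, hk, rfl⟩ := Finset.mem_image.1 hu
    have hk' : k + 1 ≤ n := Finset.mem_range.1 hk
    have h1 : U * (k + 1) ≤ 2 * A + 1 := (Nat.mul_le_mul_left U hk').trans hn1
    have h1' : (U : ℤ) * (k + 1) ≤ 2 * A + 1 := by exact_mod_cast h1
    have h2 : (0 : ℤ) ≤ U * k := by positivity
    unfold Sc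
    rw [Finset.mem_filter, Finset.mem_Icc]
    refine ⟨⟨?_, ?_⟩, ?_⟩
    · linarith
    · linarith
    · rw [add_sub_cancel_left]
      exact dvd_mul_right _ _
  have hinj : Function.Injective (fun k : ℕ => e + (U : ℤ) * (z - k)) := by
    intro k k' h
    have h1 : (U : ℤ) * (z - k) = U * (z - k') := add_left_cancel h
    have h2 := mul_left_cancel₀ hUZ.ne' h1
    have h3 : (k : ℤ) = k' := by linarith
    exact_mod_cast h3
  have hcard := Finset.card_le_card hsub
  rw [Finset.card_image_of_injective _ hinj, Finset.card_range] at hcard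
  have h4 : (n : ℝ) ≤ ((Sc U A e).card : ℝ) := by exact_mod_cast hcard
  refine le_trans ?_ h4
  rw [div_le_iff₀ hU0]
  have h5 : A ≤ n * U := by
    rw [Nat.mul_comm]
    omega
  exact_mod_cast h5

/-- the admissible values of one coefficient in a class modulo `M` -/
noncomputable def Sq (U M A : ℕ) (e : ℤ) (f : ZMod M) : Finset ℤ :=
  (Finset.Icc (-(A : ℤ)) A).filter fun u => (U : ℤ) ∣ u - e ∧ (u : ZMod M) = f

theorem Sq_card (U M A : ℕ) (e : ℤ) (f : ZMod M) (hU : 1 ≤ U) (hM : 1 ≤ M)
    (hco : Nat.Coprime U M) (hA : U * M ≤ A) :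
    ((Sq U M A e f).card : ℝ) ≤ 4 * A / (U * M) := by
  have hU0 : (0 : ℝ) < U := by exact_mod_cast hU
  have hM0 : (0 : ℝ) < M := by exact_mod_cast hM
  have hUM : (0 : ℝ) < (U : ℝ) * M := by positivity
  have hA0 : (0 : ℝ) ≤ A := Nat.cast_nonneg A
  have hA' : (U : ℝ) * M ≤ A := by exact_mod_cast hA
  have h1 := Pool.Agent.H52.HFQ.PO3.card_class_le (U * M) (-(A : ℝ)) A (Sq U M A e f)
    (Nat.mul_pos hU hM) (by linarith) (fun u hu => by
      have h2 := Finset.mem_Icc.1 (Finset.mem_filter.1 hu).1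
      constructor
      · exact_mod_cast h2.1
      · exact_mod_cast h2.2) (fun u hu v hv => by
      have h2 := (Finset.mem_filter.1 hu).2
      have h3 := (Finset.mem_filter.1 hv).2
      have h4 : (U : ℤ) ∣ u - v := by
        have := dvd_sub h2.1 h3.1
        rwa [sub_sub_sub_cancel_right] at this
      have h5 : (M : ℤ) ∣ u - v := by
        rw [← ZMod.intCast_zmod_eq_zero_iff_dvd, Int.cast_sub, h2.2, h3.2, sub_self]
      have h6 : IsCoprime (U : ℤ) (M : ℤ) := Nat.isCoprime_iff_coprime.2 hco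
      have h7 := h6.mul_dvd h4 h5
      push_cast
      exact h7)
  refine h1.trans ?_
  have h2 : ((A : ℝ) - (-(A : ℝ))) / ((U * M : ℕ) : ℝ) = 2 * (A / (U * M)) := by
    push_cast
    ring
  have h3 : 1 ≤ (A : ℝ) / (U * M) := by
    rw [le_div_iff₀ hUM, one_mul]
    exact hA'
  have h4 : 4 * (A : ℝ) / (U * M) = 4 * (A / (U * M)) := by ring
  rw [h2, h4]
  linarith

theorem pf_SPC : T_SPC := by
  classical
  intro r U hU
  have hU0 : (0 : ℝ) < U := by exact_mod_cast hU
  refine ⟨⟨U, fun A hA => ?_⟩, fun M _ hco => ⟨U * M, fun A hA E => ?_⟩⟩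
  · have hsub : (Fintype.piFinset fun i : Fin 2 => Fintype.piFinset fun j : Fin (r + 1) =>
        Sc U A (if j.val = i.val + 1 then 1 else 0)) ⊆ sL r U A := by
      intro c hc
      rw [Fintype.mem_piFinset] at hc
      unfold sL bL
      rw [Finset.mem_filter, Fintype.mem_piFinset]
      refine ⟨fun i => ?_, fun i p => ?_⟩
      · rw [Fintype.mem_piFinset]
        intro p
        exact (Finset.mem_filter.1 ((Fintype.mem_piFinset.1 (hc i)) p)).1
      · exact (Finset.mem_filter.1 ((Fintype.mem_piFinset.1 (hc i)) p)).2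
    have hcard := Finset.card_le_card hsub
    rw [Fintype.card_piFinset] at hcard
    have h1 : (∏ i : Fin 2, (((Fintype.piFinset fun j : Fin (r + 1) =>
        Sc U A (if j.val = i.val + 1 then 1 else 0)).card : ℕ) : ℝ)) ≤
        ((sL r U A).card : ℝ) := by exact_mod_cast hcard
    refine le_trans ?_ h1
    have h2 : ∀ i : Fin 2, ((A : ℝ) / U) ^ (r + 1) ≤
        (((Fintype.piFinset fun j : Fin (r + 1) =>
          Sc U A (if j.val = i.val + 1 then 1 else 0)).card : ℕ) : ℝ) := by
      intro i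
      rw [Fintype.card_piFinset]
      push_cast
      have h3 : ((A : ℝ) / U) ^ (r + 1) = ∏ _p : Fin (r + 1), (A : ℝ) / U := by
        rw [Finset.prod_const, Finset.card_univ, Fintype.card_fin]
      rw [h3]
      exact Finset.prod_le_prod (fun p _ => by positivity)
        fun p _ => Sc_card U A _ hU hA
    have h4 : ((A : ℝ) / U) ^ (2 * (r + 1)) = ∏ _i : Fin 2, ((A : ℝ) / U) ^ (r + 1) := by
      rw [Finset.prod_const, Finset.card_univ, Fintype.card_fin, ← pow_mul, mul_comm (r + 1) 2]
    rw [h4]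
    exact Finset.prod_le_prod (fun i _ => by positivity) fun i _ => h2 i
  · have hM : 1 ≤ M := Nat.one_le_iff_ne_zero.2 (NeZero.ne M)
    have hM0 : (0 : ℝ) < M := by exact_mod_cast hM
    have hfib : ∀ F : Fin 2 → Fin (r + 1) → ZMod M,
        (((sL r U A).filter fun c => cL (ZMod M) c = F).card : ℝ) ≤
          (4 * A / (U * M)) ^ (2 * (r + 1)) := by
      intro F
      have hsub : ((sL r U A).filter fun c => cL (ZMod M) c = F) ⊆
          Fintype.piFinset fun i : Fin 2 => Fintype.piFinset fun j : Fin (r + 1) =>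
            Sq U M A (if j.val = i.val + 1 then 1 else 0) (F i j) := by
        intro c hc
        obtain ⟨h1, h2⟩ := Finset.mem_filter.1 hc
        unfold sL at h1
        obtain ⟨h3, h4⟩ := Finset.mem_filter.1 h1
        unfold bL at h3
        rw [Fintype.mem_piFinset]
        intro i
        rw [Fintype.mem_piFinset]
        intro p
        refine Finset.mem_filter.2 ⟨?_, h4 i p, ?_⟩
        · exact Fintype.mem_piFinset.1 (Fintype.mem_piFinset.1 h3 i) p
        · exact congrFun (congrFun h2 i) p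
      have hcard := Finset.card_le_card hsub
      rw [Fintype.card_piFinset] at hcard
      have h1 : (((sL r U A).filter fun c => cL (ZMod M) c = F).card : ℝ) ≤
          ∏ i : Fin 2, (((Fintype.piFinset fun j : Fin (r + 1) =>
            Sq U M A (if j.val = i.val + 1 then 1 else 0) (F i j)).card : ℕ) : ℝ) := by
        exact_mod_cast hcard
      refine h1.trans ?_
      have h2 : ∀ i : Fin 2, (((Fintype.piFinset fun j : Fin (r + 1) =>
          Sq U M A (if j.val = i.val + 1 then 1 else 0) (F i j)).card : ℕ) : ℝ) ≤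
          (4 * A / (U * M)) ^ (r + 1) := by
        intro i
        rw [Fintype.card_piFinset]
        push_cast
        have h3 : (4 * (A : ℝ) / (U * M)) ^ (r + 1) =
            ∏ _p : Fin (r + 1), 4 * (A : ℝ) / (U * M) := by
          rw [Finset.prod_const, Finset.card_univ, Fintype.card_fin]
        rw [h3]
        exact Finset.prod_le_prod (fun p _ => Nat.cast_nonneg _)
          fun p _ => Sq_card U M A _ _ hU hM hco hA
      have h4 : (4 * (A : ℝ) / (U * M)) ^ (2 * (r + 1)) =
          ∏ _i : Fin 2, (4 * (A : ℝ) / (U * M)) ^ (r + 1) := by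
        rw [Finset.prod_const, Finset.card_univ, Fintype.card_fin, ← pow_mul, mul_comm (r + 1) 2]
      rw [h4]
      exact Finset.prod_le_prod (fun i _ => Nat.cast_nonneg _) fun i _ => h2 i
    have hsum : (((sL r U A).filter fun c => cL (ZMod M) c ∈ E).card : ℝ) =
        ∑ F ∈ E, (((sL r U A).filter fun c => cL (ZMod M) c = F).card : ℝ) := by
      have h1 := Finset.card_eq_sum_card_fiberwise
        (s := (sL r U A).filter fun c => cL (ZMod M) c ∈ E) (t := E)
        (f := fun c => cL (ZMod M) c) (fun c hc => (Finset.mem_filter.1 hc).2)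
      rw [h1]
      push_cast
      refine Finset.sum_congr rfl fun F hF => ?_
      congr 2
      ext c
      rw [Finset.mem_filter, Finset.mem_filter, Finset.mem_filter]
      constructor
      · rintro ⟨⟨h2, -⟩, h3⟩
        exact ⟨h2, h3⟩
      · rintro ⟨h2, h3⟩
        exact ⟨⟨h2, h3 ▸ hF⟩, h3⟩
    rw [hsum]
    have h5 : ∑ F ∈ E, (((sL r U A).filter fun c => cL (ZMod M) c = F).card : ℝ) ≤
        E.card * (4 * A / (U * M)) ^ (2 * (r + 1)) := by
      rw [← nsmul_eq_mul]
      exact Finset.sum_le_card_nsmul _ _ _ fun F _ => hfib F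
    have h6 := mul_le_mul_of_nonneg_right h5 (by positivity : (0 : ℝ) ≤ (M : ℝ) ^ (2 * (r + 1)))
    refine h6.trans (le_of_eq ?_)
    have h7 : (4 * (A : ℝ) / U) ^ (2 * (r + 1)) = (4 * A / (U * M)) ^ (2 * (r + 1)) *
        (M : ℝ) ^ (2 * (r + 1)) := by
      rw [← mul_pow]
      congr 1
      field_simp
    rw [h7]
    ring

end Pool.Agent.H65.HFS
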